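import Pool.Agent.LE.StmtsQY
import Pool.Agent.Helper94_LQX.EIG

/-!
# Squad LQY (MP_1906c1_mp), row EIZ: all local quasimodes are extended, with the bound of the supremum
(adapted from `Helper94_LQX/EIG.lean`)
-/

set_option autoImplicit false

open MeasureTheory ProbabilityTheory Function Filter

open scoped ENNReal BigOperators Topology NNReal ComplexOrder Matrix

noncomputable section

namespace Pool.Agent.LE.QY.H51

open Pool.Agent.Anderson hiding box mem_box card_box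
open Pool.Agent.Loc Pool.Agent.Mob Pool.Agent.Helper54.Bal
  Pool.Agent.Helper96.EXP Pool.Agent.BED
open Pool.Agent.LE.MN Pool.Agent.LE.CL Pool.Agent.LE.IR Pool.Agent.LE.QD Pool.Agent.LE.QF
open Pool.Agent.LE.QX.H94 (num1 num2 num4 grid union_le)

/-! ### Numbers -/

theorem numX {d : ℕ} {K t X : ℝ} (hd : 3 ≤ d) (hK : 1 ≤ K) (hX : 48 * d * K ≤ X) (ht0 : 1 ≤ t)
    (ht : t ≤ Real.exp X) :
    2 * (2 * d * t + 1) * (K * Real.exp (-X ^ 8)) ≤ Real.exp (-X) := by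
  have hd0 : (3 : ℝ) ≤ d := by exact_mod_cast hd
  have hX1 : 48 * (d : ℝ) ≤ X := by nlinarith
  have hX2 : K ≤ X := by nlinarith
  have h1 : 6 * (d : ℝ) ≤ Real.exp X := by
    have := Real.add_one_le_exp X
    linarith
  have h1' : K ≤ Real.exp X := by
    have := Real.add_one_le_exp X
    linarith
  have h2 : 2 * (2 * (d : ℝ) * t + 1) ≤ 6 * d * t := by nlinarith
  have h3 : 4 * X ≤ X ^ 8 := by
    have h4 : 4 ≤ X := by linarith
    have h5 : X * 4 ≤ X * X ^ 7 := by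
      refine mul_le_mul_of_nonneg_left ?_ (by linarith)
      calc (4 : ℝ) ≤ X := h4
        _ = X ^ 1 := (pow_one X).symm
        _ ≤ X ^ 7 := pow_le_pow_right₀ (by linarith) (by norm_num)
    calc 4 * X = X * 4 := by ring
      _ ≤ X * X ^ 7 := h5
      _ = X ^ 8 := by ring
  calc 2 * (2 * d * t + 1) * (K * Real.exp (-X ^ 8)) ≤ (6 * d * t) * (K * Real.exp (-X ^ 8)) :=
        mul_le_mul_of_nonneg_right h2 (mul_nonneg (by linarith) (Real.exp_pos _).le)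
    _ ≤ (Real.exp X * Real.exp X) * (Real.exp X * Real.exp (-X ^ 8)) := by
        refine mul_le_mul ?_ ?_ (mul_nonneg (by linarith) (Real.exp_pos _).le) (by positivity)
        · exact mul_le_mul h1 ht (by linarith) (Real.exp_pos _).le
        · exact mul_le_mul_of_nonneg_right h1' (Real.exp_pos _).le
    _ = Real.exp (X + X + (X + -X ^ 8)) := by rw [Real.exp_add, Real.exp_add, Real.exp_add]
    _ ≤ Real.exp (-X) := Real.exp_le_exp.2 (by linarith)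

/-- the good event on the torus -/
def Gd (d M : ℕ) [NeZero M] (K s θ E η : ℝ) (V : Tor d M → ℝ) : Prop :=
  (∀ x, ‖rs V ⟨E, η⟩ x x‖ ≤ K) ∧
    ∀ C' : Finset (Tor d M), (C'.card : ℝ) ≤ (s ^ ((1 : ℝ) - 1) / Real.sqrt η) ^ d →
      (C'.card : ℝ) ≤ s ^ (1 : ℝ) * (M : ℝ) ^ d → mss V ⟨E, η⟩ C' ≤ s ^ θ * C'.card / η

theorem mss_one {d M : ℕ} [NeZero M] {V : Tor d M → ℝ} {z : ℂ} {K : ℝ}
    (h : ∀ x, ‖rs V z x x‖ ≤ K) (C' : Finset (Tor d M)) (hC : C'.card ≤ 1) :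
    mss V z C' ≤ K ^ 2 := by
  rcases Nat.lt_or_ge C'.card 1 with h0 | h0
  · have h1 : C' = ∅ := Finset.card_eq_zero.1 (by omega)
    rw [h1]
    unfold mss
    simp only [Finset.sum_empty]
    positivity
  · obtain ⟨x, hx⟩ := Finset.card_eq_one.1 (le_antisymm hC h0)
    rw [hx]
    unfold mss
    simp only [Finset.sum_singleton]
    have := pow_le_pow_left₀ (norm_nonneg _) (h x) 2
    exact this

/-- the side of the torus -/
theorem numM {d : ℕ} (hd : 3 ≤ d) {s t η θ X M : ℝ} (hs : 0 < s) (hs4 : s ≤ 1 / 4)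
    (n1 : 1 ≤ t * s ^ 4) (ht : 256 ≤ t) (hη : η = 4 / t) (hη3 : η ≤ s ^ 3)
    (hX : X = s ^ (-θ)) (hX4 : 4 ≤ X) (ht2 : t ≤ Real.exp X)
    (hM1 : 1 / (s ^ 4 * η ^ 2) ≤ M) (hM2 : M ≤ 1 / (s ^ 4 * η ^ 2) + 1) :
    s ^ (-5 : ℝ) ≤ M ∧ M ≤ Real.exp (s ^ (-(4 * θ))) ∧ s ^ (-(1 : ℝ)) ≤ η * M ^ d ∧
      t ≤ s ^ (1 : ℝ) * M ^ d := by
  have ht0 : 0 < t := by linarith
  have hη0 : 0 < η := by rw [hη]; positivity
  have hs1 : s ≤ 1 := by linarith
  have hs31 : s ^ 3 ≤ 1 := pow_le_one₀ hs.le hs1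
  have hs3s : s ^ 3 ≤ s := by
    calc s ^ 3 ≤ s ^ 1 := pow_le_pow_of_le_one hs.le hs1 (by norm_num)
      _ = s := pow_one s
  have hη1 : η ≤ 1 := hη3.trans hs31
  have hηs : η ≤ s := hη3.trans hs3s
  have e1 : 1 / (s ^ 4 * η ^ 2) = t ^ 2 / (16 * s ^ 4) := by
    rw [hη]
    field_simp
    ring
  have hMt : t ^ 2 / (16 * s ^ 4) ≤ M := e1 ▸ hM1
  have hMt' : M ≤ t ^ 2 / (16 * s ^ 4) + 1 := e1 ▸ hM2
  have h0 : 0 < s ^ 4 := by positivity
  have hs41 : s ^ 4 ≤ 1 := pow_le_one₀ hs.le hs1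
  have hMone : 1 ≤ M := by
    refine le_trans ?_ hMt
    rw [le_div_iff₀ (by positivity)]
    nlinarith
  have hMd : M ≤ M ^ d := by
    calc M = M ^ 1 := (pow_one M).symm
      _ ≤ M ^ d := pow_le_pow_right₀ hMone (by omega)
  refine ⟨?_, ?_, ?_, ?_⟩
  · have e2 : s ^ (-5 : ℝ) = (s ^ 5)⁻¹ := by
      rw [Real.rpow_neg hs.le]
      congr 1
      exact_mod_cast Real.rpow_natCast s 5
    rw [e2, inv_eq_one_div]
    refine le_trans ?_ hM1
    refine one_div_le_one_div_of_le (by positivity) ?_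
    have h1 : η ^ 2 ≤ s := by nlinarith
    calc s ^ 4 * η ^ 2 ≤ s ^ 4 * s := mul_le_mul_of_nonneg_left h1 h0.le
      _ = s ^ 5 := by ring
  · have e2 : s ^ (-(4 * θ)) = X ^ 4 := by
      rw [hX, ← Real.rpow_natCast, ← Real.rpow_mul hs.le]
      congr 1
      push_cast
      ring
    rw [e2]
    have h1 : 1 / s ^ 4 ≤ t := by
      rw [div_le_iff₀ h0]
      exact n1
    have h2 : t ^ 2 / (16 * s ^ 4) ≤ t ^ 3 / 16 := by
      have e3 : t ^ 2 / (16 * s ^ 4) = t ^ 2 / 16 * (1 / s ^ 4) := by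
        field_simp
      have e4 : t ^ 3 / 16 = t ^ 2 / 16 * t := by ring
      rw [e3, e4]
      exact mul_le_mul_of_nonneg_left h1 (by positivity)
    have h3 : (1 : ℝ) ≤ t ^ 3 := one_le_pow₀ (by linarith)
    have h4 : M ≤ t ^ 3 := by
      have h5 : (16 : ℝ) ≤ t ^ 3 := by
        calc (16 : ℝ) ≤ t := by linarith
          _ = t ^ 1 := (pow_one t).symm
          _ ≤ t ^ 3 := pow_le_pow_right₀ (by linarith) (by norm_num)
      linarith
    refine h4.trans ?_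
    have h5 : t ^ 3 ≤ Real.exp X ^ 3 := pow_le_pow_left₀ ht0.le ht2 3
    refine h5.trans ?_
    rw [← Real.exp_nat_mul]
    refine Real.exp_le_exp.2 ?_
    have h6 : X * 4 ≤ X * X ^ 3 := by
      refine mul_le_mul_of_nonneg_left ?_ (by linarith)
      calc (4 : ℝ) ≤ X := hX4
        _ = X ^ 1 := (pow_one X).symm
        _ ≤ X ^ 3 := pow_le_pow_right₀ (by linarith) (by norm_num)
    have h7 : X * X ^ 3 = X ^ 4 := by ring
    push_cast
    linarith
  · rw [Real.rpow_neg hs.le, Real.rpow_one, inv_eq_one_div]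
    have h1 : η * (1 / (s ^ 4 * η ^ 2)) ≤ η * M ^ d :=
      mul_le_mul_of_nonneg_left (hM1.trans hMd) hη0.le
    refine le_trans ?_ h1
    have e2 : η * (1 / (s ^ 4 * η ^ 2)) = 1 / (s ^ 4 * η) := by
      field_simp
    rw [e2]
    refine one_div_le_one_div_of_le (by positivity) ?_
    have h2 : s ^ 4 ≤ s := by
      calc s ^ 4 ≤ s ^ 1 := pow_le_pow_of_le_one hs.le hs1 (by norm_num)
        _ = s := pow_one s
    nlinarith
  · rw [Real.rpow_one]
    have h1 : s * (t ^ 2 / (16 * s ^ 4)) ≤ s * M ^ d :=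
      mul_le_mul_of_nonneg_left (hMt.trans hMd) hs.le
    refine le_trans ?_ h1
    have e2 : s * (t ^ 2 / (16 * s ^ 4)) = t * (t / (16 * s ^ 3)) := by
      field_simp
    rw [e2]
    have h2 : 1 ≤ t / (16 * s ^ 3) := by
      rw [le_div_iff₀ (by positivity)]
      nlinarith
    nlinarith

/-- row EIZ -/
theorem eiz (tor : TorStmt) (egb : QX.EgbStmt) : EizStmt := by
  intro d a hd ha
  obtain ⟨θ', c', C₀, hθ', -, hc', hc'1, hC₀, htor⟩ := tor d a 1 hd ha one_pos le_rfl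
  obtain ⟨θ, hθ⟩ : ∃ θ, θ = θ' / 4 := ⟨_, rfl⟩
  have hθ0 : 0 < θ := by rw [hθ]; positivity
  have hθ4 : θ' = 4 * θ := by rw [hθ]; ring
  rw [hθ4] at htor
  obtain ⟨K, hK⟩ : ∃ K, K = C₀ + 1 := ⟨_, rfl⟩
  have hK2 : 2 ≤ K := by rw [hK]; linarith
  have hd0 : (3 : ℝ) ≤ d := by exact_mod_cast hd
  obtain ⟨c, hc⟩ : ∃ c : ℝ, c = min c' (min (1 / (16 * (4 * d + 13) * K))
      ((1 / (48 * d * K)) ^ (1 / θ))) := ⟨_, rfl⟩
  have hc0 : 0 < c := by
    rw [hc]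
    exact lt_min hc' (lt_min (by positivity) (Real.rpow_pos_of_pos (by positivity) _))
  have hc1 : c ≤ c' := hc ▸ min_le_left _ _
  have hc2 : c ≤ 1 / (16 * (4 * d + 13) * K) := hc ▸ (min_le_right _ _).trans (min_le_left _ _)
  have hc3 : c ≤ (1 / (48 * d * K)) ^ (1 / θ) := hc ▸ (min_le_right _ _).trans (min_le_right _ _)
  refine ⟨θ, c, hθ0, hc0, hc1.trans hc'1, ?_⟩
  intro σ t hσ hσc ht1 ht2
  obtain ⟨s, hs⟩ : ∃ s, s = |σ| := ⟨_, rfl⟩
  have hs0 : 0 < s := hs ▸ abs_pos.2 hσ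
  rw [← hs] at hσc ht1 ht2 ⊢
  have hs4 : s ≤ 1 / 4 := hσc.trans (hc1.trans hc'1)
  have hs1 : s ≤ 1 := by linarith
  obtain ⟨n1, ht256, hη3⟩ := num1 hs0 hs4 ht1
  have ht0 : 0 < t := by linarith
  have hsθ : s ^ θ ≤ 1 / (48 * d * K) := by
    have h1 : s ^ θ ≤ ((1 / (48 * d * K)) ^ (1 / θ)) ^ θ :=
      Real.rpow_le_rpow hs0.le (hσc.trans hc3) hθ0.le
    rwa [← Real.rpow_mul (by positivity), one_div_mul_cancel hθ0.ne', Real.rpow_one] at h1
  have hsθ8 : s ^ θ ≤ 1 / 8 := by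
    refine hsθ.trans ?_
    rw [div_le_div_iff₀ (by positivity) (by norm_num)]
    nlinarith
  obtain ⟨X, hX⟩ : ∃ X, X = s ^ (-θ) := ⟨_, rfl⟩
  have hXK : 48 * d * K ≤ X := by
    rw [hX, Real.rpow_neg hs0.le]
    rw [le_inv_comm₀ (by positivity) (Real.rpow_pos_of_pos hs0 _)]
    rwa [one_div] at hsθ
  have hX4 : 4 ≤ X := by nlinarith
  rw [← hX] at ht2 ⊢
  obtain ⟨η, hη⟩ : ∃ η, η = 4 / t := ⟨_, rfl⟩
  have hη0 : 0 < η := by rw [hη]; positivity
  have hη1 : η ≤ 1 := by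
    rw [hη, div_le_iff₀ ht0]
    linarith
  rw [← hη] at hη3
  -- the torus
  obtain ⟨M, hM⟩ : ∃ M : ℕ, M = ⌈1 / (s ^ 4 * η ^ 2)⌉₊ := ⟨_, rfl⟩
  have hMpos : 0 < 1 / (s ^ 4 * η ^ 2) := by positivity
  have hM1 : 1 / (s ^ 4 * η ^ 2) ≤ M := hM ▸ Nat.le_ceil _
  have hM2 : (M : ℝ) ≤ 1 / (s ^ 4 * η ^ 2) + 1 := hM ▸ (Nat.ceil_lt_add_one hMpos.le).le
  have hM0 : (0 : ℝ) < M := lt_of_lt_of_le hMpos hM1
  haveI : NeZero M := ⟨by
    intro h
    rw [h, Nat.cast_zero] at hM0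
    exact lt_irrefl _ hM0⟩
  obtain ⟨hMa, hMb, hMc, hMd⟩ := numM hd hs0 hs4 n1 ht256 hη hη3 hX hX4 ht2 hM1 hM2
  -- the cube
  obtain ⟨L, hL⟩ : ∃ L : ℕ, L = ⌈d * t⌉₊ := ⟨_, rfl⟩
  have hL1 : (d : ℝ) * t ≤ L := hL ▸ Nat.le_ceil _
  have hL2 : (L : ℝ) ≤ d * t + 1 := hL ▸ (Nat.ceil_lt_add_one (by positivity)).le
  have hLt : t ≤ L := by nlinarith
  have hLM : 4 * L + 9 ≤ M := by
    have h1 : ((4 * L + 9 : ℕ) : ℝ) ≤ M := by
      refine le_trans ?_ hM1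
      push_cast
      rw [le_div_iff₀ (by positivity), hη]
      have h2 : s * (16 * (4 * d + 13)) ≤ 1 := by
        have := hσc.trans hc2
        rw [le_div_iff₀ (by positivity)] at this
        have h3 : s * (16 * (4 * d + 13)) ≤ s * (16 * (4 * d + 13) * K) := by
          refine mul_le_mul_of_nonneg_left ?_ hs0.le
          nlinarith
        linarith
      have h3 : (4 * (L : ℝ) + 9) ≤ (4 * d + 13) * t := by nlinarith
      have h4 : s ^ 4 ≤ s := by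
        calc s ^ 4 ≤ s ^ 1 := pow_le_pow_of_le_one hs0.le hs1 (by norm_num)
          _ = s := pow_one s
      calc (4 * (L : ℝ) + 9) * (s ^ 4 * (4 / t) ^ 2) ≤ ((4 * d + 13) * t) * (s * (4 / t) ^ 2) := by
            gcongr
        _ = s * (16 * (4 * d + 13)) / t := by
            field_simp
            ring
        _ ≤ 1 / t := by gcongr
        _ ≤ 1 := by
            rw [div_le_iff₀ ht0]
            linarith
    exact_mod_cast h1
  have hLη : 4 * (d : ℝ) ≤ η * L := by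
    have h1 : η * (d * t) ≤ η * L := mul_le_mul_of_nonneg_left hL1 hη0.le
    have h2 : η * (d * t) = 4 * d := by
      rw [hη]
      field_simp
    linarith
  obtain ⟨n, hn⟩ : ∃ n : ℕ, n = ⌊t⌋₊ := ⟨_, rfl⟩
  have hnt : (n : ℝ) ≤ t := hn ▸ Nat.floor_le ht0.le
  have hcard := num2 hd hs0 hs1 (le_refl (1 : ℝ)) ht256
  rw [← hη] at hcard
  obtain ⟨v, hv⟩ : ∃ v : ℝ≥0, (v : ℝ) = σ ^ 2 := ⟨⟨σ ^ 2, sq_nonneg σ⟩, rfl⟩
  obtain ⟨s₀, hs₀⟩ : ∃ s₀ : ℝ, s₀ = 0 := ⟨_, rfl⟩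
  obtain ⟨J, hJ⟩ : ∃ J : ℕ, J = ⌊(2 * d - a) * t⌋₊ + 1 := ⟨_, rfl⟩
  obtain ⟨q, hq⟩ : ∃ q, q = K * Real.exp (-(s ^ (-(2 * (4 * θ))))) := ⟨_, rfl⟩
  have hq0 : 0 < q := hq ▸ mul_pos (by linarith) (Real.exp_pos _)
  have hgau : ∀ E₀ : ℝ, |E₀| ≤ 2 * d - a →
      gau d M v {V | ¬ Gd d M K s (4 * θ) E₀ η V} ≤ ENNReal.ofReal q := by
    intro E₀ h2
    obtain ⟨m, -, hm2, hm3, hprob⟩ := htor M v σ E₀ η hv hσ (by rw [← hs]; exact hσc.trans hc1) h2
      (by rw [← hs]; exact hMa) (by rw [← hs]; exact hMb) (by rw [← hs]; exact hMc)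
      (by rw [← hs]; exact hη3)
    have h3 := hprob ⟨0, by omega⟩ (Real.exp (s ^ (-(2 * (4 * θ)))))
      (Real.one_le_exp (Real.rpow_nonneg hs0.le _))
    rw [← hs] at h3
    have h4 : C₀ / Real.exp (s ^ (-(2 * (4 * θ)))) + Real.exp (-(s ^ (-(2 * (4 * θ))))) = q := by
      rw [hq, hK, Real.exp_neg, div_eq_mul_inv]
      ring
    rw [h4] at h3
    refine (measure_mono ?_).trans h3
    intro V hV hfull
    apply hV
    obtain ⟨-, hloc, hmss, -⟩ := hfull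
    refine ⟨fun x => ?_, hmss⟩
    have h5 := hloc x x
    rw [hm3 x] at h5
    have h6 : ‖rs V ⟨E₀, η⟩ x x‖ ≤ ‖rs V ⟨E₀, η⟩ x x - m‖ + ‖m‖ := by
      have := norm_add_le (rs V ⟨E₀, η⟩ x x - m) m
      rwa [sub_add_cancel] at this
    have h7 : s ^ (4 * θ) ≤ 1 := Real.rpow_le_one hs0.le hs1 (by positivity)
    rw [hK]
    linarith
  have hp : PP d (gl σ) (⋃ j ∈ Finset.range J, {V | s₀ + (j : ℝ) / t ≤ 2 * d - a ∧
      ¬ Gd d M K s (4 * θ) (s₀ + (j : ℝ) / t) η (fun x : Tor d M => V (0 + rep x))}) ≤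
        ENNReal.ofReal (J * q) := by
    refine union_le hσ hv J (fun j => s₀ + (j : ℝ) / t ≤ 2 * d - a)
      (fun j => Gd d M K s (4 * θ) (s₀ + (j : ℝ) / t) η) hq0.le ?_
    intro j hj
    have h1 : 0 ≤ (j : ℝ) / t := by positivity
    refine hgau _ ?_
    rw [abs_of_nonneg (by linarith)]
    exact hj
  have hm : PP d (gl σ) (⋃ j ∈ Finset.range J, {V | s₀ + (j : ℝ) / t ≤ 2 * d - a ∧
      ¬ Gd d M K s (4 * θ) (-(s₀ + (j : ℝ) / t)) η (fun x : Tor d M => V (0 + rep x))}) ≤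
        ENNReal.ofReal (J * q) := by
    refine union_le hσ hv J (fun j => s₀ + (j : ℝ) / t ≤ 2 * d - a)
      (fun j => Gd d M K s (4 * θ) (-(s₀ + (j : ℝ) / t)) η) hq0.le ?_
    intro j hj
    have h1 : 0 ≤ (j : ℝ) / t := by positivity
    refine hgau _ ?_
    rw [abs_neg, abs_of_nonneg (by linarith)]
    exact hj
  -- one energy
  have key : ∀ (V : Site d → ℝ) (E₀ : ℝ),
      Gd d M K s (4 * θ) E₀ η (fun x : Tor d M => V (0 + rep x)) →
      ∀ (R : ℕ) (E S : ℝ) (u : Site d → ℂ), |E - E₀| ≤ 1 / t →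
        3 * d * t ≤ R →
        ∑ x ∈ box 0 (R + 1), ‖u x‖ ^ 2 ≤ S →
        ∑ x ∈ box 0 R, ‖QX.nc u x + ((V x - E : ℝ) : ℂ) * u x‖ ^ 2 ≤ S / t ^ 2 →
        (∀ x : Site d, (∀ i, |(x i : ℝ)| ≤ t) → ‖u x‖ ^ 2 ≤ 1 / (c * t) * S) ∧
        ∀ C : Finset (Site d), (∀ x ∈ C, ∀ i, |(x i : ℝ)| ≤ t) → (C.card : ℝ) ≤ t →
          ∑ x ∈ C, ‖u x‖ ^ 2 ≤ s ^ θ * S := by
    intro V E₀ hG R E S u hE hR hS1 hS2
    have hS0 : 0 ≤ S := le_trans (Finset.sum_nonneg fun x _ => by positivity) hS1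
    have hLR : 2 * L ≤ R := by
      have h1 : ((2 * L : ℕ) : ℝ) ≤ R := by
        push_cast
        nlinarith
      exact_mod_cast h1
    have hbox : ∀ m k : ℕ, m ≤ k → box (0 : Site d) m ⊆ box 0 k := by
      intro m k hmk x hx
      rw [mem_box] at hx ⊢
      exact hx.trans hmk
    have hmem : ∀ x : Site d, (∀ i, |(x i : ℝ)| ≤ t) → x ∈ box (0 : Site d) L := by
      intro x hx
      rw [mem_box, sd_le_iff]
      intro i
      have h2 := hx i
      have h3 : ((|x i| : ℤ) : ℝ) ≤ L := by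
        rw [Int.cast_abs]
        exact h2.trans hLt
      rw [Pi.zero_apply, zero_sub, abs_neg]
      exact_mod_cast h3
    have hL1' : 1 ≤ L := by
      have : (1 : ℝ) ≤ L := by linarith
      exact_mod_cast this
    have hE' : |E - E₀| ≤ η / 4 := by
      refine hE.trans (le_of_eq ?_)
      rw [hη]
      field_simp
    have hSa : ∑ x ∈ box 0 (2 * L + 1), ‖u x‖ ^ 2 ≤ S :=
      le_trans (Finset.sum_le_sum_of_subset_of_nonneg (hbox _ _ (by omega))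
        fun x _ _ => by positivity) hS1
    have hSb : ∑ x ∈ box 0 (2 * L), ‖QX.nc u x + ((V x - E : ℝ) : ℂ) * u x‖ ^ 2 ≤
        (η / 4) ^ 2 * S := by
      refine (Finset.sum_le_sum_of_subset_of_nonneg (hbox _ _ hLR)
        fun x _ _ => by positivity).trans (hS2.trans (le_of_eq ?_))
      rw [hη]
      field_simp
    constructor
    · intro x hx
      have h1 := egb d (by omega) M L 1 V E E₀ η (K ^ 2) S u {x} hη0 hL1' hLM hLη hE'
        (fun C' hC' => mss_one hG.1 C' hC') hSa hSb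
        (by
          intro y hy
          rw [Finset.mem_singleton] at hy
          rw [hy]
          exact hmem x hx) (by rw [Finset.card_singleton])
      rw [Finset.sum_singleton, Real.sqrt_sq (by linarith)] at h1
      refine h1.trans (mul_le_mul_of_nonneg_right ?_ hS0)
      rw [hη, le_div_iff₀ (by positivity)]
      have h2 : 4 * (4 / t) * K * (c * t) = c * (16 * K) := by
        field_simp
        ring
      rw [h2]
      have h3 := hc2
      rw [le_div_iff₀ (by positivity)] at h3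
      have h4 : c * (16 * K) ≤ c * (16 * (4 * d + 13) * K) := by
        refine mul_le_mul_of_nonneg_left ?_ hc0.le
        nlinarith
      linarith
    · intro C hC1 hC2
      obtain ⟨B, hB⟩ : ∃ B, B = s ^ (4 * θ) * n / η := ⟨_, rfl⟩
      have h1 := egb d (by omega) M L n V E E₀ η B S u C hη0 hL1' hLM hLη hE'
        (by
          intro C' hC'
          have h2 : (C'.card : ℝ) ≤ n := by exact_mod_cast hC'
          refine (hG.2 C' (h2.trans (hnt.trans hcard)) (h2.trans (hnt.trans hMd))).trans ?_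
          rw [hB]
          gcongr)
        hSa hSb (fun x hx => hmem x (hC1 x hx))
        (by
          rw [hn]
          exact Nat.le_floor hC2)
      refine h1.trans (mul_le_mul_of_nonneg_right ?_ hS0)
      exact num4 hs0 ht0 hη hnt hB hsθ8
  -- the union
  have hsub : {V : Site d → ℝ | ¬ ∀ (R : ℕ) (E S : ℝ) (u : Site d → ℂ),
        3 * d * t ≤ R → |E| ≤ 2 * d - a → ∑ x ∈ box 0 (R + 1), ‖u x‖ ^ 2 ≤ S →
        ∑ x ∈ box 0 R, ‖QX.nc u x + ((V x - E : ℝ) : ℂ) * u x‖ ^ 2 ≤ S / t ^ 2 →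
          (∀ x : Site d, (∀ i, |(x i : ℝ)| ≤ t) → ‖u x‖ ^ 2 ≤ 1 / (c * t) * S) ∧
          ∀ C : Finset (Site d), (∀ x ∈ C, ∀ i, |(x i : ℝ)| ≤ t) → (C.card : ℝ) ≤ t →
            ∑ x ∈ C, ‖u x‖ ^ 2 ≤ s ^ θ * S} ⊆
      (⋃ j ∈ Finset.range J, {V | s₀ + (j : ℝ) / t ≤ 2 * d - a ∧
        ¬ Gd d M K s (4 * θ) (s₀ + (j : ℝ) / t) η (fun x : Tor d M => V (0 + rep x))}) ∪
      (⋃ j ∈ Finset.range J, {V | s₀ + (j : ℝ) / t ≤ 2 * d - a ∧
        ¬ Gd d M K s (4 * θ) (-(s₀ + (j : ℝ) / t)) η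
          (fun x : Tor d M => V (0 + rep x))}) := by
    intro V hV
    by_contra hcon
    apply hV
    intro R E S u hR hE2 hS1 hS2
    simp only [Set.mem_union, Set.mem_iUnion, Set.mem_ofPred_eq, not_or, not_exists, not_and,
      not_not] at hcon
    obtain ⟨j, hj, hj1, hj2⟩ := grid ht0 (s₀ := s₀) (hs₀ ▸ abs_nonneg E) hE2 (le_of_eq hs₀.symm)
    rw [← hJ] at hj
    rcases hj2 with hj2 | hj2
    · exact key V _ (hcon.1 j hj hj1) R E S u hj2 hR hS1 hS2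
    · exact key V _ (hcon.2 j hj hj1) R E S u hj2 hR hS1 hS2
  refine (measure_mono hsub).trans ((measure_union_le _ _).trans ?_)
  refine (add_le_add hp hm).trans ?_
  rw [← ENNReal.ofReal_add (by positivity) (by positivity)]
  refine ENNReal.ofReal_le_ofReal ?_
  have hJ1 : (J : ℝ) ≤ 2 * d * t + 1 := by
    rw [hJ]
    push_cast
    have h1 : (⌊(2 * d - a) * t⌋₊ : ℝ) ≤ 2 * d * t := by
      rcases le_or_gt 0 ((2 * d - a) * t) with h2 | h2
      · refine (Nat.floor_le h2).trans ?_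
        nlinarith
      · rw [Nat.floor_of_nonpos h2.le]
        push_cast
        positivity
    linarith
  have e8 : s ^ (-(2 * (4 * θ))) = X ^ 8 := by
    rw [hX, ← Real.rpow_natCast, ← Real.rpow_mul hs0.le]
    congr 1
    push_cast
    ring
  have h1 := numX hd (by linarith : (1 : ℝ) ≤ K) hXK (by linarith : (1 : ℝ) ≤ t) ht2
  rw [← e8, ← hq] at h1
  refine le_trans ?_ h1
  nlinarith

end Pool.Agent.LE.QY.H51
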